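import Mathlib

set_option autoImplicit false

namespace Pool.Agent.Results.MP_7a870e_al.Universal

open FirstOrder FirstOrder.Language Set Filter Function

/-- An algebraic system of signature `L`: a nonempty set with operations and relations. -/
structure Sys (L : FirstOrder.Language.{0, 0}) where
  C : Type
  [s : L.Structure C]
  [ne : Nonempty C]

attribute [instance] Sys.s Sys.ne

/-- Atomic formulas in the variables `X`. -/
inductive Atom (L : FirstOrder.Language.{0, 0}) (X : Type)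
  | eq (s t : L.Term X)
  | rel {m : ℕ} (R : L.Relations m) (t : Fin m → L.Term X)

/-- Truth of an atomic formula under an assignment. -/
def Atom.Real {L : FirstOrder.Language.{0, 0}} {X M : Type} [L.Structure M] (v : X → M) : Atom L X → Prop
  | .eq s t => s.realize v = t.realize v
  | .rel R t => Structure.RelMap R fun i => (t i).realize v

/-- The quasi-identity with premises `q.1` and conclusion `q.2` holds in `M`. -/
def Holds {L : FirstOrder.Language.{0, 0}} {X : Type} (q : List (Atom L X) × Atom L X) (M : Sys L) : Prop :=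
  ∀ v : X → M.C, (∀ a ∈ q.1, a.Real v) → q.2.Real v

/-- Quasivarieties: classes of systems axiomatised by quasi-identities. -/
def QV (L : FirstOrder.Language.{0, 0}) :=
  {K : Set (Sys L) // ∃ T : Set (List (Atom L ℕ) × Atom L ℕ), K = {M | ∀ q ∈ T, Holds q M}}

/-- The quasivariety generated by a class. -/
def gen {L : FirstOrder.Language.{0, 0}} (K : Set (Sys L)) : QV L := ⟨_, {q | ∀ N ∈ K, Holds q N}, rfl⟩

variable {L : FirstOrder.Language.{0, 0}} {X Y : Type}

lemma sub_gen (K : Set (Sys L)) : K ⊆ (gen K).1 := fun M h _ hq => hq M h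

lemma gen_sub {K : Set (Sys L)} {Q : QV L} (h : K ⊆ Q.1) : (gen K).1 ⊆ Q.1 := by
  obtain ⟨_, T, rfl⟩ := Q
  exact fun M hM q hq => hM q fun N hN => h hN q hq

/-- The lattice of quasivarieties, ordered by inclusion. -/
instance (L : FirstOrder.Language.{0, 0}) : Lattice (QV L) :=
  { Subtype.partialOrder _ with
    sup := fun a b => gen (a.1 ∪ b.1)
    le_sup_left := fun _ _ => subset_union_left.trans (sub_gen _)
    le_sup_right := fun _ _ => subset_union_right.trans (sub_gen _)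
    sup_le := fun _ _ _ h h' => gen_sub (union_subset h h')
    inf := fun a b => ⟨a.1 ∩ b.1, by
      obtain ⟨_, T, rfl⟩ := a
      obtain ⟨_, T', rfl⟩ := b
      exact ⟨T ∪ T', by ext; simp [or_imp, forall_and]⟩⟩
    inf_le_left := fun _ _ => inter_subset_left
    inf_le_right := fun _ _ => inter_subset_right
    le_inf := fun _ _ _ h h' => subset_inter h h' }

def Atom.subst (d : X → L.Term Y) : Atom L X → Atom L Y
  | .eq s t => .eq (s.subst d) (t.subst d)
  | .rel R t => .rel R fun i => (t i).subst d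

lemma real_subst {M : Type} [L.Structure M] (v : Y → M) (d : X → L.Term Y) (a : Atom L X) :
    (a.subst d).Real v ↔ a.Real fun x => (d x).realize v := by
  cases a <;> simp [Atom.subst, Atom.Real]

lemma term_ev {I : Type} {F : Filter I} {N : I → Type} [∀ i, L.Structure (N i)] {v w : ∀ i, X → N i}
    (h : ∀ x, ∀ᶠ i in F, v i x = w i x) (t : L.Term X) : ∀ᶠ i in F, t.realize (v i) = t.realize (w i) := by
  induction t with
  | var x => exact h x
  | func f ts ih => exact (eventually_all.2 ih).mono fun i hi => by simp [hi]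

lemma atom_ev {I : Type} {F : Filter I} {N : I → Type} [∀ i, L.Structure (N i)] {v w : ∀ i, X → N i}
    (h : ∀ x, ∀ᶠ i in F, v i x = w i x) (a : Atom L X) : ∀ᶠ i in F, (a.Real (v i) ↔ a.Real (w i)) := by
  cases a with
  | eq s t => filter_upwards [term_ev h s, term_ev h t] with i h1 h2 using by simp [Atom.Real, h1, h2]
  | rel R t => exact (eventually_all.2 fun j => term_ev h (t j)).mono fun i hi => by simp [Atom.Real, hi]

lemma ev_list {I A : Type} {F : Filter I} {l : List A} {p : A → I → Prop} (h : ∀ a ∈ l, ∀ᶠ i in F, p a i) :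
    ∀ᶠ i in F, ∀ a ∈ l, p a i := (eventually_all_finite l.finite_toSet).2 h

lemma transfer {K : Set (Sys L)} {S : Sys L} (hS : S ∈ (gen K).1) (q : List (Atom L X) × Atom L X)
    (h : ∀ N ∈ K, Holds q N) : Holds q S := by
  classical
  intro v hv
  set r : Finset X → X → ℕ := fun V x => if h : x ∈ V then V.equivFin ⟨x, h⟩ else 0 with hr
  set w : Finset X → ℕ → S.C := fun V m =>
    if h : m < V.card then v (V.equivFin.symm ⟨m, h⟩) else Classical.arbitrary _ with hw
  have h1 : ∀ x, ∀ᶠ V in (atTop : Filter (Finset X)), w V (r V x) = v x := fun x =>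
    (eventually_ge_atTop {x}).mono fun V hV => by simp [hr, hw, Finset.singleton_subset_iff.1 hV]
  obtain ⟨V, h2, h3⟩ := ((ev_list fun a (_ : a ∈ q.1) => atom_ev (N := fun _ => S.C) h1 a).and
    (atom_ev (N := fun _ => S.C) h1 q.2)).exists
  have := hS (q.1.map (Atom.subst fun x => Term.var (r V x)), q.2.subst fun x => Term.var (r V x))
    (fun N hN u hu => (real_subst ..).2 (h N hN _ fun a ha => (real_subst ..).1 (hu _ (List.mem_map_of_mem ha))))
    (w V) (List.forall_mem_map.2 fun a ha => (real_subst ..).2 ((h2 a ha).2 (hv a ha)))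
  exact h3.1 ((real_subst ..).1 this)

lemma transfer' {Q : QV L} {S : Sys L} (h : ∀ q : List (Atom L ℕ) × Atom L ℕ, (∀ N ∈ Q.1, Holds q N) → Holds q S) :
    S ∈ Q.1 := gen_sub subset_rfl h

lemma quot {I : Type} (F : Filter I) (N : I → Sys L) (e : ∀ i, X → (N i).C) [Nonempty X] :
    ∃ (C : Sys L) (π : L.Term X → C.C), Surjective π ∧ ∀ (Y : Type) (d : Y → L.Term X) (a : Atom L Y),
      (a.Real fun y => π (d y)) ↔ ∀ᶠ i in F, a.Real fun y => (d y).realize (e i) := by
  let s : Setoid (L.Term X) := ⟨fun t t' => ∀ᶠ i in F, t.realize (e i) = t'.realize (e i),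
    fun _ => Eventually.of_forall fun _ => rfl, fun h => h.mono fun _ h => h.symm,
    fun h h' => (h.and h').mono fun _ h => h.1.trans h.2⟩
  letI : L.Structure (Quotient s) := ⟨fun f c => ⟦Term.func f fun j => (c j).out⟧,
    fun R c => ∀ᶠ i in F, Structure.RelMap R fun j => (c j).out.realize (e i)⟩
  have o : ∀ {m : ℕ} (c : Fin m → L.Term X), ∀ᶠ i in F, ∀ j, (⟦c j⟧ : Quotient s).out.realize (e i) = (c j).realize (e i) :=
    fun c => eventually_all.2 fun j => Quotient.mk_out (s := s) (c j)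
  have h1 : ∀ (Y : Type) (d : Y → L.Term X) (t : L.Term Y),
      t.realize (fun y => (⟦d y⟧ : Quotient s)) = ⟦t.subst d⟧ := by
    intro Y d t
    induction t with
    | var => rfl
    | func f ts ih =>
      simp only [Term.realize_func, ih]
      exact Quotient.sound ((o fun j => (ts j).subst d).mono fun i hi => by
        simp only [Term.subst, Term.realize_func, hi])
  haveI : Nonempty (Quotient s) := ⟨⟦Term.var (Classical.arbitrary X)⟧⟩
  refine ⟨⟨Quotient s⟩, Quotient.mk s, Quotient.mk_surjective, fun Y d a => ?_⟩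
  cases a with
  | eq s t => simp only [Atom.Real, h1, Quotient.eq, ← Term.realize_subst]; rfl
  | rel R t =>
    simp only [Atom.Real, h1, ← Term.realize_subst]
    exact eventually_congr ((o fun j => (t j).subst d).mono fun i hi => by simp only [hi])

inductive Fn : ℕ → Type | mk (i : Fin 6) : Fn 3
inductive Rl : ℕ → Type | mk : Rl 1
def σ : FirstOrder.Language.{0, 0} := ⟨Fn, Rl⟩

variable {n : ℕ}

def op {C : Type} (a : (ZMod n → C) → ZMod n → C) (i : Fin 6) (x y z : ZMod n → C × Bool) (j : ZMod n) : C × Bool :=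
  match i with
  | 0 => x (j + 1)
  | 1 => (a (fun l => (x l).1) j, false)
  | 2 => if j = 0 then x 0 else y j
  | 3 => ((x 0).1, (y 0).2)
  | 4 => ((x 0).1, !((x 0).2 && (y 0).2))
  | 5 => if (x 0).2 then y j else z j

variable (φ : ZMod n → L.Term (ZMod n)) (ρ : ZMod n → Atom L (ZMod n))

def E (C : Sys L) : Sys σ := @Sys.mk σ (ZMod n → C.C × Bool)
  ⟨fun f x => match f, x with | .mk i, x => op (fun u j => (φ j).realize u) i (x 0) (x 1) (x 2),
   fun R x => match R, x with | .mk, x => ∀ j, (x 0 j).2 = true → (ρ j).Real fun l => (x 0 l).1⟩ inferInstance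

def T (i : Fin 6) (x y z : σ.Term X) : σ.Term X := Term.func (Fn.mk i) ![x, y, z]

def rl {C : Sys L} (v : X → ZMod n → C.C × Bool) (t : σ.Term X) : ZMod n → C.C × Bool :=
  Term.realize (M := (E φ ρ C).C) v t

def RE {C : Sys L} (v : X → ZMod n → C.C × Bool) (b : Atom σ X) : Prop := b.Real (M := (E φ ρ C).C) v

lemma rl_T {C : Sys L} (v : X → ZMod n → C.C × Bool) (i : Fin 6) (x y z : σ.Term X) : rl φ ρ v (T i x y z) =
    op (fun u j => (φ j).realize u) i (rl φ ρ v x) (rl φ ρ v y) (rl φ ρ v z) := rfl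

lemma RE_eq {C : Sys L} (v : X → ZMod n → C.C × Bool) (s t : σ.Term X) :
    RE φ ρ v (.eq s t) ↔ ∀ j, rl φ ρ v s j = rl φ ρ v t j := funext_iff

lemma RE_rel {C : Sys L} (v : X → ZMod n → C.C × Bool) (t : Fin 1 → σ.Term X) : RE φ ρ v (.rel Rl.mk t) ↔
    ∀ j, (rl φ ρ v (t 0) j).2 = true → (ρ j).Real fun l => (rl φ ρ v (t 0) l).1 := Iff.rfl

def asm {C : Type} (x : X → ZMod n → Bool) (w : X × ZMod n → C) (s : X) (j : ZMod n) : C × Bool :=
  (w (s, j), x s j)

def apart {C : Type} (v : X → ZMod n → C × Bool) (s : X × ZMod n) : C := (v s.1 s.2).1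

lemma tr_term (x : X → ZMod n → Bool) (t : σ.Term X) : ∃ r : ZMod n → L.Term (X × ZMod n) × Bool,
    ∀ (C : Sys L) (w : X × ZMod n → C.C), rl φ ρ (asm x w) t = fun j => ((r j).1.realize w, (r j).2) := by
  induction t with
  | var s => exact ⟨fun j => (Term.var (s, j), x s j), fun _ _ => rfl⟩
  | func f ts ih =>
    obtain ⟨i⟩ := f
    choose r hr using ih
    refine ⟨op (fun u j => (φ j).subst u) i (r 0) (r 1) (r 2), fun C w => ?_⟩
    show op (fun u j => (φ j).realize u) i (rl φ ρ _ (ts 0)) (rl φ ρ _ (ts 1)) (rl φ ρ _ (ts 2)) = _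
    rw [hr, hr, hr]
    funext j
    fin_cases i <;> simp only [op, Term.realize_subst] <;> split_ifs <;> rfl

variable [NeZero n]

lemma tr_atom (x : X → ZMod n → Bool) (b : Atom σ X) : ∃ (q : Prop) (l : List (Atom L (X × ZMod n))),
    ∀ (C : Sys L) (w : X × ZMod n → C.C), RE φ ρ (asm x w) b ↔ q ∧ ∀ a ∈ l, a.Real w := by
  cases b with
  | eq s t =>
    obtain ⟨r, hr⟩ := tr_term φ ρ x s
    obtain ⟨r', hr'⟩ := tr_term φ ρ x t
    refine ⟨∀ j, (r j).2 = (r' j).2, Finset.univ.toList.map fun j => .eq (r j).1 (r' j).1, fun C w => ?_⟩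
    simp only [RE_eq, Atom.Real, hr, hr', List.forall_mem_map, Finset.mem_toList, Finset.mem_univ,
      true_imp_iff, Prod.ext_iff, forall_and, and_comm]
  | rel R t =>
    obtain ⟨⟩ := R
    obtain ⟨r, hr⟩ := tr_term φ ρ x (t 0)
    exact ⟨True, (Finset.univ.filter fun j => (r j).2 = true).toList.map
      fun j => (ρ j).subst fun l => (r l).1, fun C w => by simp [RE_rel, hr, real_subst]⟩

lemma shift (c : ZMod n) (t : σ.Term X) : ∃ t' : σ.Term X,
    ∀ (C : Sys L) (v : X → ZMod n → C.C × Bool) (j : ZMod n), rl φ ρ v t' j = rl φ ρ v t (j + c) := by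
  rw [← ZMod.natCast_zmod_val c]
  induction c.val with
  | zero => exact ⟨t, by simp⟩
  | succ m ih =>
    obtain ⟨t', h⟩ := ih
    exact ⟨T 0 t' t' t', fun C v j => by rw [rl_T, op, h]; congr 1; push_cast; ring⟩

lemma tuple (w : ZMod n → σ.Term X) : ∃ t' : σ.Term X,
    ∀ (C : Sys L) (v : X → ZMod n → C.C × Bool) (j : ZMod n), rl φ ρ v t' j = rl φ ρ v (w j) 0 := by
  suffices ∀ s : Finset (ZMod n), ∃ t' : σ.Term X, ∀ (C : Sys L) (v : X → ZMod n → C.C × Bool), ∀ j ∈ s,
      rl φ ρ v t' j = rl φ ρ v (w j) 0 by simpa using this Finset.univ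
  intro s
  induction s using Finset.induction_on with
  | empty => exact ⟨w 0, by simp⟩
  | insert c s _ ih =>
    obtain ⟨t, h⟩ := ih
    obtain ⟨t1, h1⟩ := shift φ ρ c t
    obtain ⟨t2, h2⟩ := shift φ ρ (-c) (T 2 (w c) t1 t1)
    refine ⟨t2, fun C v j hj => ?_⟩
    rw [h2, rl_T, op]
    split_ifs with h3
    · rw [add_neg_eq_zero.1 h3]
    · rw [h1, neg_add_cancel_right, h C v j ((Finset.mem_insert.1 hj).resolve_left fun e => h3 (by simp [e]))]

def Covers : Prop :=
  (∀ m (f : L.Functions m), ∃ j, ∃ ι : Fin m → ZMod n, Injective ι ∧ φ j = Term.func f fun a => Term.var (ι a)) ∧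
  ∀ m (R : L.Relations m), ∃ j, ∃ ι : Fin m → ZMod n, Injective ι ∧ ρ j = Atom.rel R fun a => Term.var (ι a)

variable {φ ρ}

lemma up_term [Nonempty X] (hc : Covers φ ρ) (t : L.Term (X × ZMod n)) : ∃ t' : σ.Term X,
    ∀ (C : Sys L) (v : X → ZMod n → C.C × Bool), (rl φ ρ v t' 0).1 = t.realize (apart v) := by
  induction t with
  | var s =>
    obtain ⟨t', h⟩ := shift φ ρ s.2 (Term.var s.1)
    exact ⟨t', fun C v => by rw [h, zero_add]; rfl⟩
  | func f ts ih =>
    choose r hr using ih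
    obtain ⟨j, ι, h1, h2⟩ := hc.1 _ f
    obtain ⟨y, hy⟩ := tuple φ ρ (extend ι r fun _ => Term.var (Classical.arbitrary X))
    obtain ⟨t', h⟩ := shift φ ρ j (T 1 y y y)
    exact ⟨t', fun C v => by simp only [h, zero_add, rl_T, op, h2, Term.realize, hy, h1.extend_apply, hr]⟩

lemma up_atom [Nonempty X] (hc : Covers φ ρ) (b : σ.Term X) (a : Atom L (X × ZMod n)) : ∃ β : Atom σ X,
    ∀ (C : Sys L) (v : X → ZMod n → C.C × Bool), RE φ ρ v β ↔ ((rl φ ρ v b 0).2 = true → a.Real (apart v)) := by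
  cases a with
  | eq s t =>
    obtain ⟨s', hs⟩ := up_term hc s
    obtain ⟨t', ht⟩ := up_term hc t
    refine ⟨.eq (T 5 b (T 3 s' b b) (T 3 t' b b)) (T 3 t' b b), fun C v => ?_⟩
    simp only [RE_eq, Atom.Real, rl_T, ← hs, ← ht]
    by_cases h : (rl φ ρ v b 0).2 = true <;> simp [op, h]
  | rel R t =>
    choose r hr using fun a => up_term hc (t a)
    obtain ⟨j, ι, h1, h2⟩ := hc.2 _ R
    obtain ⟨y, hy⟩ := tuple φ ρ fun l => T 3 (extend ι r (fun _ => b) l) (if l = j then b else T 1 b b b) b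
    refine ⟨.rel Rl.mk fun _ => y, fun C v => (RE_rel ..).trans ⟨fun h hb => ?_, fun h l hl => ?_⟩⟩
    · simpa [h2, Atom.Real, hy, rl_T, op, h1.extend_apply, hr] using h j (by simpa [hy, rl_T, op] using hb)
    by_cases e : l = j
    · subst e
      simpa [h2, Atom.Real, hy, rl_T, op, h1.extend_apply, hr] using h (by simpa [hy, rl_T, op] using hl)
    · simp [hy, rl_T, op, e] at hl

lemma lift_q [Nonempty X] (hc : Covers φ ρ) {M : QV L} {S : Sys σ} (hS : S ∈ (gen (E φ ρ '' M.1)).1)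
    {q : List (Atom L ℕ) × Atom L ℕ} (hq : ∀ N ∈ M.1, Holds q N) (b : σ.Term X) (d : ℕ → L.Term (X × ZMod n)) :
    ∃ β : Atom L ℕ → Atom σ X, Holds (q.1.map β, β q.2) S ∧ ∀ a (C : Sys L) (v : X → ZMod n → C.C × Bool),
      RE φ ρ v (β a) ↔ ((rl φ ρ v b 0).2 = true → a.Real fun m => (d m).realize (apart v)) := by
  choose β hβ using fun a : Atom L ℕ => up_atom hc b (a.subst d)
  simp only [real_subst] at hβ
  refine ⟨β, transfer hS _ ?_, hβ⟩
  rintro _ ⟨C, hC, rfl⟩ u hu
  exact (hβ _ C u).2 fun hb => hq C hC _ fun a ha => (hβ a C u).1 (hu _ (List.mem_map_of_mem ha)) hb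

lemma le_of (hc : Covers φ ρ) {M M' : QV L} (h : gen (E φ ρ '' M.1) ≤ gen (E φ ρ '' M'.1)) : M ≤ M' := by
  intro C hC
  refine transfer' fun q hq v hv => ?_
  obtain ⟨β, h1, h2⟩ := lift_q hc (h (sub_gen _ ⟨C, hC, rfl⟩)) hq (Term.var 0) fun m => Term.var (m, 0)
  exact (h2 _ C fun m _ => (v m, true)).1 (h1 (fun m _ => (v m, true))
    (List.forall_mem_map.2 fun a ha => (h2 a C _).2 fun _ => hv a ha)) rfl

lemma triv (M : QV L) : ∃ C ∈ M.1, ∀ (w : X → C.C) (a : Atom L X), a.Real w := by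
  have h : ∀ (X : Type) (w : X → Unit) (a : Atom L X), @Atom.Real L X Unit ⟨fun _ _ => (), fun _ _ => True⟩ w a :=
    fun X w a => by cases a <;> trivial
  exact ⟨@Sys.mk L Unit ⟨fun _ _ => (), fun _ _ => True⟩ _, transfer' fun q _ v _ => h _ _ _, h X⟩

lemma sup_le' (M M' : QV L) : gen (E φ ρ '' (M ⊔ M').1) ≤ gen (E φ ρ '' M.1) ⊔ gen (E φ ρ '' M'.1) := by
  refine gen_sub ?_
  rintro _ ⟨C, hC, rfl⟩ q hq v hv
  choose p l hl using tr_atom φ ρ fun s j => (v s j).2
  have key : ∀ N ∈ M.1 ∪ M'.1, ∀ w : ℕ × ZMod n → N.C, (∀ b ∈ q.1, ∀ a ∈ l b, a.Real w) →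
      p q.2 ∧ ∀ a ∈ l q.2, a.Real w := fun N hN w h =>
    (hl _ N w).1 (hq (E φ ρ N) (hN.imp (fun h => sub_gen _ ⟨N, h, rfl⟩) fun h => sub_gen _ ⟨N, h, rfl⟩) _
      fun b hb => (hl b N w).2 ⟨((hl b C (apart v)).1 (hv b hb)).1, h b hb⟩)
  obtain ⟨N, h1, h2⟩ := triv (X := ℕ × ZMod n) M
  refine (hl _ C (apart v)).2 ⟨(key N (Or.inl h1) (Classical.arbitrary _) fun _ _ _ _ => h2 _ _).1, fun a ha => ?_⟩
  exact transfer hC (q.1.flatMap l, a) (fun N hN w h => (key N hN w (List.forall_mem_flatMap.1 h)).2 a ha) _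
    (List.forall_mem_flatMap.2 fun b hb => ((hl b C (apart v)).1 (hv b hb)).2)

lemma le_inf' (hc : Covers φ ρ) (M M' : QV L) :
    gen (E φ ρ '' M.1) ⊓ gen (E φ ρ '' M'.1) ≤ gen (E φ ρ '' (M ⊓ M').1) := by
  classical
  rintro S ⟨hS, hS'⟩ q hq w hw
  by_contra hn
  let A := {a : Atom σ S.C // a.Real id}
  let I := Finset A × {a : Atom σ S.C // ¬ a.Real id}
  have ex : ∀ i : I, ∃ (N : Sys L) (v : S.C → ZMod n → N.C × Bool),
      (∀ a ∈ i.1, RE φ ρ v a.1) ∧ ¬ RE φ ρ v i.2.1 := fun i => by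
    by_contra! h
    refine i.2.2 (transfer hS (i.1.toList.map (·.1), i.2.1) ?_ id (List.forall_mem_map.2 fun a _ => a.2))
    rintro _ ⟨N, -, rfl⟩ v hv
    exact h N v fun a ha => hv _ (List.mem_map_of_mem (Finset.mem_toList.2 ha))
  choose N v v1 v2 using ex
  let G : Filter I := comap Prod.fst atTop
  have G1 : ∀ a : Atom σ S.C, a.Real id ↔ ∀ᶠ i in G, RE φ ρ (v i) a := fun a => ⟨fun h =>
    (tendsto_comap.eventually (eventually_ge_atTop {(⟨a, h⟩ : A)})).mono fun i hi =>
      v1 i ⟨a, h⟩ (Finset.singleton_subset_iff.1 hi), fun h => by_contra fun h' =>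
    let ⟨V, hV⟩ := (eventually_comap.1 h).exists; v2 (V, ⟨a, h'⟩) (hV _ rfl)⟩
  let a0 : {a : Atom σ S.C // ¬ a.Real id} := ⟨q.2.subst fun m => Term.var (w m), fun h => hn ((real_subst ..).1 h)⟩
  let U : Ultrafilter I := (Ultrafilter.of atTop).map fun V => (V, a0)
  have UG : (U : Filter I) ≤ G := tendsto_comap_iff.2 (Ultrafilter.of_le _)
  obtain ⟨s0⟩ := S.ne
  let F : Filter I :=
    { sets := {P | ∃ b : σ.Term S.C, (∀ᶠ i in U, (rl φ ρ (v i) b 0).2 = true) ∧
        ∀ᶠ i in G, (rl φ ρ (v i) b 0).2 = true → i ∈ P}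
      univ_sets := ⟨T 4 (T 1 (.var s0) (.var s0) (.var s0)) (.var s0) (.var s0), by simp [rl_T, op], by simp⟩
      sets_of_superset := fun ⟨b, h1, h2⟩ h => ⟨b, h1, h2.mono fun i hi hb => h (hi hb)⟩
      inter_sets := fun ⟨b, h1, h2⟩ ⟨c, h3, h4⟩ => ⟨T 4 (T 4 b c c) (T 4 b c c) c,
        (h1.and h3).mono fun i hi => by simp [rl_T, op, hi], (h2.and h4).mono fun i hi hb => by
          simp only [rl_T, op, Bool.and_self, Bool.not_not, Bool.and_eq_true] at hb
          exact ⟨hi.1 hb.1, hi.2 hb.2⟩⟩ }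
  have UF : (U : Filter I) ≤ F := fun P ⟨b, h1, h2⟩ => (h1.and (UG h2)).mono fun i hi => hi.2 hi.1
  have FG : F ≤ G := fun P h => let ⟨b, h1, _⟩ := F.univ_sets; ⟨b, h1, mem_of_superset h fun i hi _ => hi⟩
  have : F.NeBot := neBot_of_le UF
  let x : S.C → ZMod n → Bool := fun s j => decide (∀ᶠ i in U, (v i s j).2 = true)
  have hx : ∀ s, ∀ᶠ i in F, asm x (apart (v i)) s = v i s := fun s => by
    refine (eventually_all.2 fun j => ?_).mono fun i (hi : ∀ j, x s j = (v i s j).2) =>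
      funext fun j => Prod.ext rfl (hi j)
    obtain ⟨b, hb⟩ := shift φ ρ j (Term.var s)
    have hb' : ∀ i, rl φ ρ (v i) b 0 = v i s j := fun i => by rw [hb, zero_add]; rfl
    by_cases h : ∀ᶠ i in U, (v i s j).2 = true
    · exact ⟨b, by simpa only [hb'] using h, Eventually.of_forall fun i hi => by simpa [x, h, hb'] using hi⟩
    · exact ⟨T 4 b b b, (Ultrafilter.eventually_not.2 h).mono fun i hi => by simpa [rl_T, op, hb'] using hi,
        Eventually.of_forall fun i hi => by simpa [x, h, hb', rl_T, op] using hi⟩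
  obtain ⟨C, π, p1, p2⟩ := quot F N fun i => apart (v i)
  have hM : ∀ M : QV L, S ∈ (gen (E φ ρ '' M.1)).1 → C ∈ M.1 := fun M hS => transfer' fun r hr u hu => by
    choose d hd using fun m => p1 (u m)
    obtain rfl : u = fun m => π (d m) := funext fun m => (hd m).symm
    obtain ⟨b, b1, b2⟩ := ev_list fun a ha => (p2 _ d a).1 (hu a ha)
    obtain ⟨β, h1, h2⟩ := lift_q hc hS hr b d
    refine (p2 _ d _).2 ⟨b, b1, ((G1 _).1 (h1 id (List.forall_mem_map.2 fun a ha => (G1 _).2 ?_))).mono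
      fun i hi => (h2 _ _ _).1 hi⟩
    exact b2.mono fun i hi => (h2 _ _ _).2 fun hb => hi hb a ha
  have main : ∀ β : Atom σ S.C, RE φ ρ (asm x fun s => π (Term.var s)) β ↔ ∀ᶠ i in F, RE φ ρ (v i) β := fun β => by
    obtain ⟨p, l, hl⟩ := tr_atom φ ρ x β
    refine Iff.trans ?_ (eventually_congr (atom_ev (N := fun i => (E φ ρ (N i)).C) hx β))
    refine (hl ..).trans (Iff.trans ?_ (eventually_congr (Eventually.of_forall fun i => (hl (N i) _).symm)))
    simp only [eventually_and, eventually_const, p2 _ Term.var]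
    exact and_congr_right fun _ => (eventually_all_finite l.finite_toSet).symm
  have := hq _ ⟨C, ⟨hM _ hS, hM _ hS'⟩, rfl⟩ (fun m => asm x (fun s => π (Term.var s)) (w m)) fun a ha =>
    (real_subst _ (fun m => Term.var (w m)) a).1 ((main _).2 (FG ((G1 _).1 ((real_subst ..).2 (hw a ha)))))
  obtain ⟨V, hV⟩ := (show ∀ᶠ V in (Ultrafilter.of (atTop : Filter (Finset A))), RE φ ρ (v (V, a0)) a0.1 from
    UF ((main a0.1).1 ((real_subst ..).2 this))).exists
  exact v2 (V, a0) hV

lemma covers (L : FirstOrder.Language.{0, 0}) [Finite L.Symbols] : ∃ n : ℕ, ∃ (_ : NeZero n)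
    (φ : ZMod n → L.Term (ZMod n)) (ρ : ZMod n → Atom L (ZMod n)), Covers φ ρ := by
  obtain ⟨k, hk⟩ := (finite_range (Sum.elim (·.1) (·.1) : L.Symbols → ℕ)).bddAbove
  have := Fintype.ofFinite L.Symbols
  set n := Fintype.card L.Symbols + k + 1 with hn
  have : NeZero n := ⟨by omega⟩
  obtain ⟨c⟩ := Embedding.nonempty_of_card_le (α := L.Symbols) (β := ZMod n) (by rw [ZMod.card]; omega)
  have ι : ∀ s : L.Symbols, Fin (Sum.elim (·.1) (·.1) s) ↪ ZMod n := fun s => Classical.choice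
    (Embedding.nonempty_of_card_le (by rw [ZMod.card, Fintype.card_fin]; have := hk ⟨s, rfl⟩; omega))
  exact ⟨n, this, extend (fun f => c (.inl f)) (fun f => Term.func f.2 fun a => Term.var (ι (.inl f) a)) fun _ => .var 0,
    extend (fun R => c (.inr R)) (fun R => Atom.rel R.2 fun a => Term.var (ι (.inr R) a)) fun _ => .eq (.var 0) (.var 0),
    fun m f => ⟨_, _, (ι (.inl ⟨m, f⟩)).injective, (c.injective.comp Sum.inl_injective).extend_apply _ _ ⟨m, f⟩⟩,
    fun m R => ⟨_, _, (ι (.inr ⟨m, R⟩)).injective, (c.injective.comp Sum.inr_injective).extend_apply _ _ ⟨m, R⟩⟩⟩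

/-- One quasivariety `K` of finite signature whose lattice of subquasivarieties contains every
lattice of quasivarieties of finite signature as a sublattice. -/
theorem result : ∃ (σ : FirstOrder.Language.{0, 0}) (K : QV σ), Finite σ.Symbols ∧
    ∀ (L : FirstOrder.Language.{0, 0}) (M : QV L), Finite L.Symbols →
      ∃ f : LatticeHom (Iic M) (Iic K), Injective f := by
  refine ⟨σ, gen univ, ?_, fun L M _ => ?_⟩
  · refine Finite.of_surjective (fun o : Option (Fin 6) => o.elim (.inr ⟨_, Rl.mk⟩) fun i => .inl ⟨_, Fn.mk i⟩) ?_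
    rintro (⟨_, ⟨i⟩⟩ | ⟨_, ⟨⟩⟩)
    exacts [⟨some i, rfl⟩, ⟨none, rfl⟩]
  obtain ⟨n, _, φ, ρ, hc⟩ := covers L
  have mono : ∀ {a b : QV L}, a ≤ b → gen (E φ ρ '' a.1) ≤ gen (E φ ρ '' b.1) :=
    fun h => gen_sub ((image_mono h).trans (sub_gen _))
  exact ⟨⟨⟨fun a => ⟨gen (E φ ρ '' a.1.1), (subset_univ _).trans (sub_gen _)⟩, fun a b => Subtype.ext
    (le_antisymm (sup_le' _ _) (sup_le (mono le_sup_left) (mono le_sup_right)))⟩, fun a b => Subtype.ext
    (le_antisymm (le_inf (mono inf_le_left) (mono inf_le_right)) (le_inf' hc _ _))⟩, fun a b h =>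
    Subtype.ext (le_antisymm (le_of hc (congrArg Subtype.val h).le) (le_of hc (congrArg Subtype.val h).ge))⟩

end Pool.Agent.Results.MP_7a870e_al.Universal
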